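import Pool.Agent.Helper36.SPR.St4

/-! # SPR, module AE3: mass of a set against its additive energy -/

set_option autoImplicit false

namespace Pool.Agent.Helper94.SPR

open Finset
open Pool.Agent.Helper36.SPR
open scoped ComplexConjugate

private lemma quad_AE3 (n : ℕ) [NeZero n] (A : Finset (ZMod n)) :
    ∑ a : ZMod n, ‖∑ x ∈ A, ZMod.stdAddChar (-(a * x))‖ ^ 4 = (n : ℝ) * enA A := by
  have hz : ∀ z : ℂ, ((‖z‖ ^ 4 : ℝ) : ℂ) = (z * z) * conj (z * z) := by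
    intro z
    rw [Complex.mul_conj, Complex.normSq_eq_norm_sq, norm_mul]
    push_cast
    ring
  have h1 : ∀ a : ZMod n, ((‖∑ x ∈ A, ZMod.stdAddChar (-(a * x))‖ ^ 4 : ℝ) : ℂ) =
      ∑ q ∈ (A ×ˢ A) ×ˢ (A ×ˢ A), ZMod.stdAddChar (a * ((q.2.1 + q.2.2) - (q.1.1 + q.1.2))) := by
    intro a
    rw [hz]
    have h2 : (∑ x ∈ A, ZMod.stdAddChar (-(a * x))) * (∑ x ∈ A, ZMod.stdAddChar (-(a * x))) =
        ∑ p ∈ A ×ˢ A, ZMod.stdAddChar (-(a * (p.1 + p.2))) := by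
      rw [Finset.sum_mul_sum, ← Finset.sum_product']
      refine Finset.sum_congr rfl fun p _ => ?_
      rw [← AddChar.map_add_eq_mul]
      congr 1
      ring
    rw [h2, map_sum]
    have h3 : ∀ p : ZMod n × ZMod n, conj (ZMod.stdAddChar (-(a * (p.1 + p.2)))) =
        ZMod.stdAddChar (a * (p.1 + p.2)) := by
      intro p
      rw [← AddChar.map_neg_eq_conj, neg_neg]
    simp only [h3]
    rw [Finset.sum_mul_sum, ← Finset.sum_product']
    refine Finset.sum_congr rfl fun q _ => ?_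
    rw [← AddChar.map_add_eq_mul]
    congr 1
    ring
  have h4 : ((∑ a : ZMod n, ‖∑ x ∈ A, ZMod.stdAddChar (-(a * x))‖ ^ 4 : ℝ) : ℂ) =
      (((n : ℝ) * enA A : ℝ) : ℂ) := by
    rw [Complex.ofReal_sum]
    simp only [h1]
    rw [Finset.sum_comm]
    have h5 : ∀ q : (ZMod n × ZMod n) × (ZMod n × ZMod n),
        ∑ a : ZMod n, ZMod.stdAddChar (a * ((q.2.1 + q.2.2) - (q.1.1 + q.1.2))) =
        if q.1.1 + q.1.2 = q.2.1 + q.2.2 then (n : ℂ) else 0 := by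
      intro q
      rw [AddChar.sum_mulShift _ (ZMod.isPrimitive_stdAddChar n), ZMod.card]
      by_cases h : q.1.1 + q.1.2 = q.2.1 + q.2.2
      · rw [if_pos h, if_pos (by rw [h, sub_self])]
      · rw [if_neg h, if_neg (fun h' => h (sub_eq_zero.1 h').symm)]; simp
    simp only [h5]
    rw [Finset.sum_ite, Finset.sum_const_zero, add_zero, Finset.sum_const, nsmul_eq_mul]
    unfold enA
    push_cast
    ring
  exact_mod_cast h4

theorem hAE3 (hNB3 : StNB3) (hNA3 : StNA3) : StAE3 := by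
  intro n T _ th hT j A
  obtain ⟨b1, b2, b3, b4, b5, b6, b7⟩ := hNB3 n T th hT j
  obtain ⟨c1, c2, c3, c4⟩ := hNA3 n T th hT j
  have hn : (0 : ℝ) < n := by exact_mod_cast Nat.pos_of_ne_zero (NeZero.ne n)
  obtain ⟨w, hw⟩ : ∃ w : ZMod n → ℝ, w = fun a => ‖muv n T th a‖ ^ (2 * j) := ⟨_, rfl⟩
  have hw0 : ∀ a, 0 ≤ w a := fun a => by rw [hw]; positivity
  have hw1 : ∀ a, w a ≤ 1 := fun a => by rw [hw]; exact pow_le_one₀ (norm_nonneg _) (c4 a)
  obtain ⟨H, hH⟩ : ∃ H : ZMod n → ℝ, H = fun a => ‖∑ x ∈ A, ZMod.stdAddChar (-(a * x))‖ := ⟨_, rfl⟩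
  have hH0 : ∀ a, 0 ≤ H a := fun a => by rw [hH]; exact norm_nonneg _
  have hbet : ∑ a, w a = n * betv n T th j := by
    rw [b2, hw]; field_simp
  have hQ : ∑ a, H a ^ 4 = n * enA A := by rw [hH]; exact quad_AE3 n A
  have hS0 : 0 ≤ ∑ x ∈ A, nuv n T th j x := Finset.sum_nonneg fun x _ => c1 x
  -- first bound
  have hP : n * ∑ x ∈ A, nuv n T th j x ≤ ∑ a, w a * H a := by
    have e1 : ((n * ∑ x ∈ A, nuv n T th j x : ℝ) : ℂ) =
        ∑ a : ZMod n, (w a : ℂ) * ∑ x ∈ A, ZMod.stdAddChar (-(a * x)) := by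
      push_cast
      rw [Finset.mul_sum]
      simp only [b1]
      have : ∀ x ∈ A, (n : ℂ) * ((∑ a : ZMod n, ((‖muv n T th a‖ ^ (2 * j) : ℝ) : ℂ) * ZMod.stdAddChar (-(a * x))) / n) =
          ∑ a : ZMod n, ((w a : ℝ) : ℂ) * ZMod.stdAddChar (-(a * x)) := by
        intro x _
        rw [mul_div_cancel₀ _ (by exact_mod_cast hn.ne'), hw]
      rw [Finset.sum_congr rfl this, Finset.sum_comm]
      refine Finset.sum_congr rfl fun a _ => ?_
      rw [Finset.mul_sum]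
    have e2 : ‖((n * ∑ x ∈ A, nuv n T th j x : ℝ) : ℂ)‖ = n * ∑ x ∈ A, nuv n T th j x := by
      rw [Complex.norm_real, Real.norm_of_nonneg (by positivity)]
    rw [← e2, e1]
    refine (norm_sum_le _ _).trans (Finset.sum_le_sum fun a _ => ?_)
    rw [norm_mul, Complex.norm_real, Real.norm_of_nonneg (hw0 a), hH]
  -- Cauchy-Schwarz
  have hCS1 : (∑ a, w a * H a) ^ 2 ≤ (∑ a, w a) * ∑ a, w a * H a ^ 2 := by
    have := Finset.sum_mul_sq_le_sq_mul_sq Finset.univ (fun a => Real.sqrt (w a)) (fun a => Real.sqrt (w a) * H a)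
    have e1 : ∀ a, Real.sqrt (w a) * (Real.sqrt (w a) * H a) = w a * H a := fun a => by
      rw [← mul_assoc, Real.mul_self_sqrt (hw0 a)]
    have e2 : ∀ a, Real.sqrt (w a) ^ 2 = w a := fun a => Real.sq_sqrt (hw0 a)
    have e3 : ∀ a, (Real.sqrt (w a) * H a) ^ 2 = w a * H a ^ 2 := fun a => by
      rw [mul_pow, e2]
    simp only [e1, e2, e3] at this
    exact this
  have hCS2 : (∑ a, w a * H a ^ 2) ^ 2 ≤ (∑ a, w a) * ∑ a, H a ^ 4 := by
    have h := Finset.sum_mul_sq_le_sq_mul_sq Finset.univ (fun a => w a) (fun a => H a ^ 2)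
    have e1 : ∀ a, (H a ^ 2) ^ 2 = H a ^ 4 := fun a => by ring
    simp only [e1] at h
    refine h.trans (mul_le_mul_of_nonneg_right (Finset.sum_le_sum fun a _ => ?_)
      (Finset.sum_nonneg fun a _ => by positivity))
    nlinarith [hw0 a, hw1 a]
  rw [hbet] at hCS1 hCS2
  rw [hQ] at hCS2
  obtain ⟨Z, hZ⟩ : ∃ Z : ℝ, Z = ∑ a, w a * H a ^ 2 := ⟨_, rfl⟩
  have hZ0 : 0 ≤ Z := by rw [hZ]; exact Finset.sum_nonneg fun a _ => mul_nonneg (hw0 a) (by positivity)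
  rw [← hZ] at hCS1 hCS2
  have hfin : (n * ∑ x ∈ A, nuv n T th j x) ^ 4 ≤ n ^ 4 * (betv n T th j ^ 3 * enA A) := by
    calc (n * ∑ x ∈ A, nuv n T th j x) ^ 4 ≤ (∑ a, w a * H a) ^ 4 :=
          pow_le_pow_left₀ (by positivity) hP 4
      _ = ((∑ a, w a * H a) ^ 2) ^ 2 := by ring
      _ ≤ (n * betv n T th j * Z) ^ 2 := pow_le_pow_left₀ (by positivity) hCS1 2
      _ = (n * betv n T th j) ^ 2 * Z ^ 2 := by ring
      _ ≤ (n * betv n T th j) ^ 2 * (n * betv n T th j * (n * enA A)) :=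
          mul_le_mul_of_nonneg_left hCS2 (by positivity)
      _ = n ^ 4 * (betv n T th j ^ 3 * enA A) := by ring
  rw [mul_pow] at hfin
  exact le_of_mul_le_mul_left hfin (by positivity)

end Pool.Agent.Helper94.SPR
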